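import Pool.Agent.HE.FDefs
import Pool.Agent.HE.Ext
import Pool.Agent.PX.F.Crv

/-!
# HE F Crv: lifts of the curves in `A × ℙ^m`
-/

set_option autoImplicit false

open Topology Filter Metric

namespace Pool.Agent.HE

open Pool.Agent.H17 (PN HolomorphicInto puncturedDisc)
open Pool.Agent.H36.BP (EN fs wd)
open Pool.Agent.H62.EF (MN pr)
open Pool.Agent.AD (Vd)
open Pool.Agent.TG (Lat Gd)
open Pool.Agent.G3 (wt TT LLift)
open Pool.Agent.PXF (Cn HolomorphicIntoTorus)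

variable {N k : ℕ} {Λ : AddSubgroup (Vd (k + 1))}

theorem ofLp_ne {x : EN N} (hx : x ≠ 0) : x.ofLp ≠ 0 := by
  intro h
  apply hx
  ext j
  exact congrFun h j

theorem toLp_ne {x : Fin (N + 1) → ℂ} (hx : x ≠ 0) : (WithLp.toLp 2 x : EN N) ≠ 0 := by
  intro h
  apply hx
  funext j
  exact congrArg (fun v : EN N => v.ofLp j) h

theorem mk_of_pr {w : EN N} (hw : w ≠ 0) {p : PN N} (h : pr (WithLp.toLp 2 p.rep : EN N) = pr w) : ∃ h' : w.ofLp ≠ 0, p = Projectivization.mk ℂ w.ofLp h' := by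
  have h1 : (WithLp.toLp 2 p.rep : EN N) ≠ 0 := toLp_ne p.rep_nonzero
  obtain ⟨c, -, h3⟩ := (Pool.Agent.H62.EF.pr_eq_iff h1 hw).1 h
  refine ⟨ofLp_ne hw, ?_⟩
  rw [← Projectivization.mk_rep p, Projectivization.mk_eq_mk_iff']
  exact ⟨c, by
    have h4 := congrArg (fun v : EN N => v.ofLp) h3
    exact h4.symm⟩

theorem pr_rep_mk {x : Fin (N + 1) → ℂ} (hx : x ≠ 0) : pr (WithLp.toLp 2 (Projectivization.mk ℂ x hx).rep : EN N) = pr (WithLp.toLp 2 x : EN N) := by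
  obtain ⟨a, ha⟩ := Projectivization.exists_smul_eq_mk_rep ℂ x hx
  rw [← ha]
  exact Pool.Agent.H62.EF.pr_smul (WithLp.toLp 2 x : EN N) a.ne_zero

/-- local lifts in the language of `LLift` -/
theorem llift_of {g : ℂ → PN N} {z₀ : ℂ} {U : Set ℂ} (hg : HolomorphicInto g U) (hz : z₀ ∈ U) :
    LLift (fun z => pr (WithLp.toLp 2 (g z).rep : EN N)) z₀ := by
  obtain ⟨φ, h1, h2⟩ := hg z₀ hz
  refine ⟨fun z => WithLp.toLp 2 (φ z), ?_, ?_⟩
  · exact ((PiLp.continuousLinearEquiv 2 ℂ (fun _ : Fin (N + 1) => ℂ)).symm.toContinuousLinearMap.analyticAt (φ z₀)).comp h1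
  · filter_upwards [h2] with z hz
    obtain ⟨h3, h4⟩ := hz
    refine ⟨toLp_ne h3, ?_⟩
    rw [h4]
    exact pr_rep_mk h3

/-- the lift of a curve on a disc -/
theorem lift_disc {g : ℂ → PN N} {c : ℂ} {R : ℝ} (hg : HolomorphicInto g (ball c R)) {r : ℝ} (hr : r < R) :
    ∃ w : ℂ → EN N, DifferentiableOn ℂ w (ball c r) ∧ ∀ z ∈ ball c r, w z ≠ 0 ∧ ∃ h' : (w z).ofLp ≠ 0, g z = Projectivization.mk ℂ (w z).ofLp h' := by
  obtain ⟨F, hF, hFg⟩ := Pool.Agent.TG.disc_lift (f := fun z => pr (WithLp.toLp 2 (g (c + z)).rep : EN N)) (R := R) (fun z hz => by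
    have h1 : c + z ∈ ball c R := by
      rw [mem_ball_iff_norm, add_sub_cancel_left, ← mem_ball_zero_iff]
      exact hz
    obtain ⟨Φ, h2, h3⟩ := llift_of hg h1
    have h4 : AnalyticAt ℂ (fun z : ℂ => c + z) z := analyticAt_const.add analyticAt_id
    exact ⟨fun z => Φ (c + z), h2.comp_of_eq h4 rfl, h4.continuousAt.eventually h3⟩) hr
  have hin : ∀ z ∈ ball c r, z - c ∈ ball (0 : ℂ) r := fun z hz => by
    rw [mem_ball_zero_iff, ← mem_ball_iff_norm]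
    exact hz
  refine ⟨fun z => F (z - c), ?_, fun z hz => ?_⟩
  · exact hF.comp (differentiable_id.sub_const c).differentiableOn hin
  · obtain ⟨h1, h2⟩ := hFg _ (hin z hz)
    simp only [add_sub_cancel] at h2
    exact ⟨h1, mk_of_pr h1 h2⟩

theorem lift_univ {g : ℂ → PN N} (hg : HolomorphicInto g Set.univ) :
    ∃ w : ℂ → EN N, Differentiable ℂ w ∧ ∀ z, w z ≠ 0 ∧ ∃ h' : (w z).ofLp ≠ 0, g z = Projectivization.mk ℂ (w z).ofLp h' := by
  obtain ⟨F, hF, hFg⟩ := Pool.Agent.G3.entire_lift (f := fun z => pr (WithLp.toLp 2 (g z).rep : EN N)) fun z => llift_of hg (Set.mem_univ z)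
  refine ⟨F, hF, fun z => ?_⟩
  obtain ⟨h1, h2⟩ := hFg z
  exact ⟨h1, mk_of_pr h1 h2⟩

end Pool.Agent.HE
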