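import Pool.Agent.HE.F.FroB
import Pool.Agent.HE.Lip

/-!
# HE F Dsc: discs and entire curves
-/

set_option autoImplicit false

open Topology Filter Metric MvPolynomial

namespace Pool.Agent.HE

open Pool.Agent.H17 (PN VanishesAt HolomorphicInto puncturedDisc)
open Pool.Agent.H36.BP (EN fs wd)
open Pool.Agent.H62.EF (MN pr)
open Pool.Agent.AD (Vd)
open Pool.Agent.TG (Lat Gd)
open Pool.Agent.G3 (wt TT LLift)
open Pool.Agent.PXF (Cn HolomorphicIntoTorus IsSimple IsCurveIn)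
open Pool.Agent.PX (torus_disc torus_univ torus_half)
open Pool.Agent.HEF

variable {N k q r : ℕ} {Λ : AddSubgroup (Vd (k + 1))} {X : Set ((Cn (k + 1) ⧸ Λ) × PN N)} {F : Fin q → Cn (k + 1) → MvPolynomial (Fin (N + 1)) ℂ} {S : Set (Cn (k + 1) ⧸ Λ)}

theorem cls_eq {a b : Vd (k + 1)} : (a : Cn (k + 1) ⧸ Λ) = (b : Cn (k + 1) ⧸ Λ) ↔ a - b ∈ Λ := by
  rw [eq_comm, QuotientAddGroup.eq, neg_add_eq_sub]

theorem curveIn_mono {T : Set ((Cn (k + 1) ⧸ Λ) × PN N)} {t : ℂ → Cn (k + 1) ⧸ Λ} {g : ℂ → PN N} {U V : Set ℂ} (hc : IsCurveIn Λ T t g U) (hV : V ⊆ U) : IsCurveIn Λ T t g V :=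
  ⟨fun z hz => hc.torus z (hV hz), fun z hz => hc.proj z (hV hz), fun z hz => hc.mem z (hV hz)⟩

theorem cw_of (hF : ∀ j, ∃ d, IsHolomorphicForm Set.univ (F j) d) {t : ℂ → Cn (k + 1) ⧸ Λ} {g : ℂ → PN N} {U : Set ℂ} {h : ℂ → Vd (k + 1)} {w : ℂ → EN N} (hc : ∀ z ∈ U, (t z, g z) ∈ outside Λ X F)
    (hh : DifferentiableOn ℂ h U) (ht : ∀ z ∈ U, t z = (h z : Cn (k + 1) ⧸ Λ)) (hw : DifferentiableOn ℂ w U) (hg : ∀ z ∈ U, w z ≠ 0 ∧ ∃ h' : (w z).ofLp ≠ 0, g z = Projectivization.mk ℂ (w z).ofLp h') :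
    Cw (cX Λ X) (fun j => fn (F j)) U w h := by
  refine ⟨hw, hh, fun z hz => (hg z hz).1, fun z hz => ?_, fun j z hz h0 => ?_⟩
  · intro h'
    obtain ⟨-, h1, h2⟩ := hg z hz
    have h3 := (hc z hz).1
    rw [ht z hz, h2] at h3
    exact h3
  · obtain ⟨-, h1, h2⟩ := hg z hz
    have h3 := (hc z hz).2 (h z) (ht z hz).symm j
    obtain ⟨d, hd⟩ := hF j
    apply h3
    show VanishesAt (F j (h z)) (g z)
    rw [h2, van_mk (hd.homogeneous (h z) (Set.mem_univ _))]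
    exact h0

theorem sections_form (H : IsHyp Λ X F S) (j : Fin q) : ∃ d, IsHolomorphicForm Set.univ (F j) d := by
  obtain ⟨r, W, h1⟩ := H.sections j
  obtain ⟨d, -, h2⟩ := h1.form
  exact ⟨d, h2⟩

/-- the bound for discs of radius `ρ` -/
theorem bound_disc (hΛ : Lat Λ) (H : IsHyp Λ X F S) : ∃ C : ℝ, 0 < C ∧ ∀ (t : ℂ → Cn (k + 1) ⧸ Λ) (g : ℂ → PN N) (h : ℂ → Vd (k + 1)) (c : ℂ) (ρ : ℝ), 0 < ρ → IsCurveIn Λ (outside Λ X F) t g (ball c ρ) →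
    DifferentiableOn ℂ h (ball c ρ) → (∀ z ∈ ball c ρ, t z = (h z : Cn (k + 1) ⧸ Λ)) → ρ * ‖deriv h c‖ ≤ C := by
  obtain ⟨r, W, d, P⟩ := hd_of hΛ H
  obtain ⟨C, hC, hb⟩ := P.bound
  refine ⟨2 * C, by positivity, fun t g h c ρ hρ hc hd ht => ?_⟩
  obtain ⟨w, hw, hwg⟩ := lift_disc hc.proj (r := ρ / 2) (by linarith)
  have hsub : ball c (ρ / 2) ⊆ ball c ρ := ball_subset_ball (by linarith)
  have h1 : Cw (cX Λ X) (fun j => fn (F j)) (ball c (ρ / 2)) w h :=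
    cw_of (sections_form H) (fun z hz => hc.mem z (hsub hz)) (hd.mono hsub) (fun z hz => ht z (hsub hz)) hw hwg
  have hA : ∀ ζ : ℂ, HasDerivAt (fun ζ : ℂ => c + ((ρ / 2 : ℝ) : ℂ) * ζ) ((ρ / 2 : ℝ) : ℂ) ζ := by
    intro ζ
    simpa using ((hasDerivAt_id ζ).const_mul ((ρ / 2 : ℝ) : ℂ)).const_add c
  have hm : Set.MapsTo (fun ζ : ℂ => c + ((ρ / 2 : ℝ) : ℂ) * ζ) (ball 0 1) (ball c (ρ / 2)) := by
    intro ζ hζ
    rw [mem_ball_zero_iff] at hζ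
    rw [mem_ball_iff_norm, add_sub_cancel_left, norm_mul, Complex.norm_real, Real.norm_of_nonneg (by positivity)]
    nlinarith
  have h2 := hb _ _ (h1.comp (fun ζ _ => (hA ζ).differentiableAt.differentiableWithinAt) hm)
  have h3 : HasDerivAt (fun ζ : ℂ => h (c + ((ρ / 2 : ℝ) : ℂ) * ζ)) (((ρ / 2 : ℝ) : ℂ) • deriv h c) 0 := by
    have h4 : HasDerivAt h (deriv h c) (c + ((ρ / 2 : ℝ) : ℂ) * 0) := by
      rw [mul_zero, add_zero]
      exact (hd.differentiableAt (isOpen_ball.mem_nhds (mem_ball_self hρ))).hasDerivAt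
    exact h4.scomp (0 : ℂ) (hA 0)
  rw [h3.deriv, norm_smul, Complex.norm_real, Real.norm_of_nonneg (by positivity)] at h2
  linarith

theorem discs (hΛ : Lat Λ) (H : IsHyp Λ X F S) : ∃ C : ℝ, ∀ (h : ℂ → Cn (k + 1)) (g : ℂ → PN N), AnalyticAt ℂ h 0 → IsCurveIn Λ (outside Λ X F) (fun z => (h z : Cn (k + 1) ⧸ Λ)) g (ball 0 1) →
    ‖deriv h 0‖ ≤ C := by
  obtain ⟨C, hC, hb⟩ := bound_disc hΛ H
  refine ⟨C, fun h g han hc => ?_⟩
  obtain ⟨h1, hd, he⟩ := torus_disc hΛ hc.torus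
  have h0 : (0 : ℂ) ∈ ball (0 : ℂ) 1 := mem_ball_self one_pos
  have hmem : ∀ z ∈ ball (0 : ℂ) 1, h z - h1 z ∈ Λ := fun z hz => cls_eq.1 (he z hz)
  obtain ⟨δ, hδ, hdisc⟩ := hΛ.disc
  have hd1 : DifferentiableAt ℂ h1 0 := (hd 0 h0).differentiableAt (isOpen_ball.mem_nhds h0)
  have hev : h =ᶠ[𝓝 0] fun z => h1 z + (h 0 - h1 0) := by
    have hcont : ContinuousAt (fun z => h z - h1 z - (h 0 - h1 0)) 0 := (han.continuousAt.sub hd1.continuousAt).sub continuousAt_const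
    have h3 : ∀ᶠ z in 𝓝 (0 : ℂ), ‖h z - h1 z - (h 0 - h1 0)‖ < δ := by
      have h4 := hcont.norm.tendsto
      simp only [sub_self, norm_zero] at h4
      exact h4.eventually (gt_mem_nhds hδ)
    filter_upwards [h3, isOpen_ball.mem_nhds h0] with z hz hz1
    have h5 := hdisc _ (Λ.sub_mem (hmem z hz1) (hmem 0 h0)) hz
    rw [sub_eq_zero] at h5
    rw [← h5]
    abel
  have hder : deriv h 0 = deriv h1 0 := by
    rw [hev.deriv_eq, deriv_add_const]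
  have h6 := hb _ g h1 0 1 one_pos hc hd he
  rw [hder]
  linarith

theorem entire (hΛ : Lat Λ) (H : IsHyp Λ X F S) (t : ℂ → Cn (k + 1) ⧸ Λ) (g : ℂ → PN N) (hc : IsCurveIn Λ (outside Λ X F) t g Set.univ) (z w : ℂ) : t z = t w ∧ (t z ∉ S → g z = g w) := by
  obtain ⟨h, hh, ht⟩ := torus_univ hΛ hc.torus
  obtain ⟨C, hC0, hC⟩ := bound_disc hΛ H
  have hd0 : ∀ z, deriv h z = 0 := by
    intro z
    by_contra hne
    have hpos : 0 < ‖deriv h z‖ := norm_pos_iff.mpr hne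
    have h1 := hC t g h z ((C + 1) / ‖deriv h z‖) (by positivity) (curveIn_mono hc (Set.subset_univ _)) hh.differentiableOn fun z _ => ht z
    rw [div_mul_cancel₀ _ hpos.ne'] at h1
    linarith
  have hconst : ∀ z, h z = h 0 := fun z => is_const_of_deriv_eq_zero hh hd0 z 0
  refine ⟨by rw [ht z, ht w, hconst z, hconst w], fun hS => ?_⟩
  obtain ⟨G, hG, hGg⟩ := lift_univ hc.proj
  have hcw : Cw (cX Λ X) (fun j => fn (F j)) Set.univ G h :=
    cw_of (sections_form H) (fun z hz => hc.mem z hz) hh.differentiableOn (fun z _ => ht z) hG.differentiableOn fun z _ => hGg z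
  have h0S : h 0 ∉ cS Λ S := by
    intro h1
    apply hS
    rw [ht z, hconst z]
    exact h1
  obtain ⟨r, W, d, P⟩ := hd_of hΛ H
  obtain ⟨δ, hδ, hδb⟩ := Metric.isOpen_iff.1 P.D_closed.isOpen_compl _ h0S
  have hGd : h 0 ∈ Gd (cS Λ S) δ := by
    intro b hb
    by_contra hlt
    push Not at hlt
    have h1 : b ∈ ball (h 0) δ := by
      rw [mem_ball_iff_norm, norm_sub_rev]
      exact hlt
    exact hδb h1 hb
  obtain ⟨L, hL, hlip⟩ := P.lip hδ (le_refl (0 : ℝ)) one_pos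
  have hfs : ∀ z, fs (G z) (deriv G z) ≤ L := by
    intro z
    refine hlip G h z (hcw.mono (Set.subset_univ _)) (fun ζ _ => ?_) ?_
    · rw [hd0 ζ, norm_zero]
    · rw [hconst z]
      exact hGd
  obtain ⟨m, Q, e', ρ, hp⟩ := P.fib (h 0) h0S
  obtain ⟨c, hcc⟩ := hp.const G hG (fun z => (hGg z).1) (fun z => by
    have h1 := hcw.mem z (Set.mem_univ z)
    rw [hconst z] at h1
    exact h1) ⟨L, hfs⟩ (fun s => Or.inr fun z => hp.ne s (h 0) (mem_ball_self hp.pos) (G z) (hGg z).1 (by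
      have h1 := hcw.mem z (Set.mem_univ z)
      rw [hconst z] at h1
      exact h1) fun j => by
        have h1 := hcw.ne j z (Set.mem_univ z)
        rw [hconst z] at h1
        exact h1) z w
  obtain ⟨-, hz, hgz⟩ := hGg z
  obtain ⟨-, hw', hgw⟩ := hGg w
  rw [hgz, hgw, Projectivization.mk_eq_mk_iff']
  exact ⟨c, by rw [hcc]; rfl⟩

end Pool.Agent.HE
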