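import Pool.Agent.HE.F.Main

/-!
# HE F Exa: examples of hyperbolic fibres

`hyperbolic_of_pieces`: `2 κ + 1` families of hypersurface sections of the fibres of `X`, any `κ + 1` of which have no common point in the fibre over `y₀`.
-/

set_option autoImplicit false

open Topology Filter Metric MvPolynomial

namespace Pool.Agent.HE

open Pool.Agent.H17 (PN VanishesAt HolomorphicInto puncturedDisc)
open Pool.Agent.H36.BP (EN fs wd)
open Pool.Agent.AD (Vd)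
open Pool.Agent.PXF (Cn)
open Pool.Agent.HEF

variable {N k q κ e : ℕ} {Λ : AddSubgroup (Vd (k + 1))} {X : Set ((Cn (k + 1) ⧸ Λ) × PN N)} {F : Fin q → Cn (k + 1) → MvPolynomial (Fin (N + 1)) ℂ} {S : Set (Cn (k + 1) ⧸ Λ)}

theorem wd_le_minors (x v : EN N) : wd x v ≤ ∑ i, ∑ j, ‖x i * v j - x j * v i‖ := by
  rcases le_or_gt (wd x v) 0 with h | h
  · exact h.trans (Finset.sum_nonneg fun i _ => Finset.sum_nonneg fun j _ => norm_nonneg _)
  obtain ⟨a, b, ha, hb, -, he⟩ := Pool.Agent.H36.BP.wd_norming h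
  rw [← he]
  have h1 : ∀ a x : EN N, (inner ℂ a x : ℂ) = ∑ i, (starRingEnd ℂ) (a i) * x i := by
    intro a x
    rw [PiLp.inner_apply]
    refine Finset.sum_congr rfl fun i _ => ?_
    rw [RCLike.inner_apply, mul_comm]
  have h2 : (inner ℂ a x : ℂ) * inner ℂ b v - inner ℂ b x * inner ℂ a v = ∑ i, ∑ j, (starRingEnd ℂ) (a i) * (starRingEnd ℂ) (b j) * (x i * v j - x j * v i) := by
    rw [h1, h1, h1, h1, Finset.sum_mul_sum, mul_comm (∑ i, (starRingEnd ℂ) (b i) * x i), Finset.sum_mul_sum, ← Finset.sum_sub_distrib]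
    refine Finset.sum_congr rfl fun i _ => ?_
    rw [← Finset.sum_sub_distrib]
    refine Finset.sum_congr rfl fun j _ => ?_
    ring
  have hle : ∀ (a : EN N) (i : Fin (N + 1)), ‖a‖ = 1 → ‖a i‖ ≤ 1 := fun a i ha => ha ▸ PiLp.norm_apply_le a i
  rw [h2]
  refine (norm_sum_le _ _).trans (Finset.sum_le_sum fun i _ => (norm_sum_le _ _).trans (Finset.sum_le_sum fun j _ => ?_))
  rw [norm_mul, norm_mul, RCLike.norm_conj, RCLike.norm_conj]
  have h3 : ‖a i‖ * ‖b j‖ ≤ 1 := mul_le_one₀ (hle a i ha) (norm_nonneg _) (hle b j hb)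
  exact (mul_le_mul_of_nonneg_right h3 (norm_nonneg _)).trans (one_mul _).le

theorem lift_of_brody {g : ℂ → PN N} (hg : IsBrodyCurve g) : ∃ (G : ℂ → EN N) (L : ℝ), Differentiable ℂ G ∧ (∀ z, ∃ h : (G z).ofLp ≠ 0, g z = Projectivization.mk ℂ (G z).ofLp h) ∧ ∀ z, fs (G z) (deriv G z) ≤ L := by
  obtain ⟨φ, C, hφ, h⟩ := hg
  have hd : ∀ z, HasDerivAt (fun z => (WithLp.toLp 2 (φ z) : EN N)) (WithLp.toLp 2 (deriv φ z)) z := by
    intro z
    exact ((PiLp.continuousLinearEquiv 2 ℂ (fun _ : Fin (N + 1) => ℂ)).symm.toContinuousLinearMap.hasFDerivAt (x := φ z)).comp_hasDerivAt z (hφ z).hasDerivAt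
  refine ⟨fun z => WithLp.toLp 2 (φ z), ∑ _i : Fin (N + 1), ∑ _j : Fin (N + 1), C, fun z => (hd z).differentiableAt, fun z => (h z).1, fun z => ?_⟩
  rw [(hd z).deriv]
  have h0 : (WithLp.toLp 2 (φ z) : EN N) ≠ 0 := toLp_ne (h z).1.1
  unfold fs
  rw [div_le_iff₀ (by have := norm_pos_iff.2 h0; positivity)]
  refine (wd_le_minors _ _).trans ?_
  rw [Finset.sum_mul]
  refine Finset.sum_le_sum fun i _ => ?_
  rw [Finset.sum_mul]
  refine Finset.sum_le_sum fun j _ => ?_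
  rw [EuclideanSpace.norm_sq_eq]
  exact (h z).2 i j

theorem hyperbolic_of_pieces (hX : IsAnalytic Λ X) {y₀ : Cn (k + 1)} {ρ : ℝ} (hρ : 0 < ρ) (he : 0 < e) (Q : Fin (2 * κ + 1) → Cn (k + 1) → MvPolynomial (Fin (N + 1)) ℂ)
    (hQ : ∀ s, IsHolomorphicForm (ball y₀ ρ) (Q s) e) (hQF : ∀ s, ∀ y ∈ ball y₀ ρ, ∀ p : PN N, ((y : Cn (k + 1) ⧸ Λ), p) ∈ X → VanishesAt (Q s y) p → ∃ j, VanishesAt (F j y) p)
    (hgp : ∀ I : Finset (Fin (2 * κ + 1)), I.card = κ + 1 → ∀ p : PN N, ((y₀ : Cn (k + 1) ⧸ Λ), p) ∈ X → ∃ s ∈ I, ¬ VanishesAt (Q s y₀) p) : HasHyperbolicFibre Λ X F y₀ := by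
  refine ⟨ρ, 2 * κ + 1, Q, fun _ => e, hρ, hQ, hQF, fun g hg hgX hgs z w => ?_⟩
  have hy₀b : y₀ ∈ ball y₀ ρ := mem_ball_self hρ
  have hGp : Gp {x : EN N | (y₀, x) ∈ cX Λ X} (fun s x => fn (Q s) (y₀, x)) (fun _ => e) κ := by
    refine ⟨?_, fun c x hx => cX_smul c hx, fun s => ?_, fun _ => he, fun s c x => fn_hom (hQ s) hy₀b c x, fun I hI x hxY hx => ?_, le_rfl⟩
    · exact (cX_closed hX).preimage (Continuous.prodMk_right y₀)
    · have h4 := fn_diff (hQ s)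
      intro x
      have h5 : DifferentiableAt ℂ (fn (Q s)) (y₀, x) := h4.differentiableAt ((isOpen_ball.prod isOpen_univ).mem_nhds ⟨hy₀b, Set.mem_univ _⟩)
      have h6 : DifferentiableAt ℂ (fun x : EN N => (y₀, x)) x := (differentiableAt_const _).prodMk differentiableAt_id
      exact DifferentiableAt.comp (f := fun x : EN N => (y₀, x)) (g := fn (Q s)) x h5 h6
    · obtain ⟨s, hs, h4⟩ := hgp I hI (Projectivization.mk ℂ x.ofLp (ofLp_ne hx)) (hxY (ofLp_ne hx))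
      refine ⟨s, hs, fun h5 => h4 ?_⟩
      rw [van_mk ((hQ s).homogeneous y₀ hy₀b)]
      exact h5
  obtain ⟨G, L, hG, hGg, hL⟩ := lift_of_brody hg
  have hv : ∀ s z, VanishesAt (Q s y₀) (g z) ↔ fn (Q s) (y₀, G z) = 0 := by
    intro s z
    obtain ⟨h1, h2⟩ := hGg z
    rw [h2]
    exact van_mk ((hQ s).homogeneous y₀ hy₀b) h1
  obtain ⟨c, hc⟩ := hGp.const hG (fun z => by
    obtain ⟨h1, -⟩ := hGg z
    rintro h2
    exact h1 (by rw [h2]; rfl)) (fun z => by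
    obtain ⟨h1, h2⟩ := hGg z
    intro h3
    have h4 := hgX z
    rw [h2] at h4
    exact h4) hL (fun s => by
    rcases hgs s with h1 | h1
    · exact Or.inl fun z => (hv s z).1 (h1 z)
    · exact Or.inr fun z h2 => h1 z ((hv s z).2 h2)) z w
  obtain ⟨h1, h2⟩ := hGg z
  obtain ⟨h3, h4⟩ := hGg w
  rw [h2, h4, Projectivization.mk_eq_mk_iff']
  exact ⟨c, by rw [hc]; rfl⟩

end Pool.Agent.HE
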