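import Pool.Agent.HE.F.Dsc
import Pool.Agent.HE.Pun
import Pool.Agent.H62.FC.Extend

/-!
# HE F Fib: maps of the punctured disc, the component in the projective space
-/

set_option autoImplicit false

open Topology Filter Metric MvPolynomial

namespace Pool.Agent.HE

open Pool.Agent.H17 (PN VanishesAt HolomorphicInto puncturedDisc)
open Pool.Agent.H62.FC (PunctMero)
open Pool.Agent.H36.BP (EN fs wd)
open Pool.Agent.H62.EF (MN pr)
open Pool.Agent.AD (Vd)
open Pool.Agent.TG (Lat Gd)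
open Pool.Agent.G3 (wt TT LLift)
open Pool.Agent.PXF (Cn HolomorphicIntoTorus IsSimple IsCurveIn)
open Pool.Agent.HEF

variable {N k q r : ℕ} {Λ : AddSubgroup (Vd (k + 1))} {X : Set ((Cn (k + 1) ⧸ Λ) × PN N)} {F : Fin q → Cn (k + 1) → MvPolynomial (Fin (N + 1)) ℂ} {S : Set (Cn (k + 1) ⧸ Λ)}

/-- a form along a curve -/
theorem mf_form {U : Set (Vd (k + 1))} (hU : IsOpen U) {G : Vd (k + 1) → MvPolynomial (Fin (N + 1)) ℂ} {d : ℕ} (hG : IsHolomorphicForm U G d) {H : ℂ → Vd (k + 1)} (hH : AnalyticAt ℂ H 0) (h0 : H 0 ∈ U) :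
    ∃ G' : MvPolynomial (Fin (N + 1)) MF, ∀ᶠ z in 𝓝 (0 : ℂ), G'.map (ev z) = G (H z) := by
  classical
  have hc : ∀ α, AnalyticAt ℂ (fun z => (G (H z)).coeff α) 0 := by
    intro α
    have h1 : ∀ᶠ z in 𝓝 (0 : ℂ), DifferentiableAt ℂ (fun z => (G (H z)).coeff α) z := by
      filter_upwards [hH.eventually_analyticAt, hH.continuousAt.eventually (hU.mem_nhds h0)] with z h2 h3
      have h4 : DifferentiableAt ℂ (fun y => (G y).coeff α) (H z) := (hG.holomorphic α).differentiableAt (hU.mem_nhds h3)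
      exact DifferentiableAt.comp z h4 h2.differentiableAt
    exact Complex.analyticAt_iff_eventually_differentiableAt.2 h1
  refine ⟨∑ α ∈ Finset.finsuppAntidiag (Finset.univ : Finset (Fin (N + 1))) d, monomial α ⟨fun z => (G (H z)).coeff α, (hc α).meromorphicAt⟩, ?_⟩
  filter_upwards [hH.continuousAt.eventually (hU.mem_nhds h0)] with z hz
  ext β
  rw [map_sum, coeff_sum]
  simp only [map_monomial, coeff_monomial, ev_apply]
  rw [Finset.sum_ite_eq']
  split_ifs with h1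
  · rfl
  · by_contra h2
    apply h1
    rw [Finset.mem_finsuppAntidiag]
    have h3 := (hG.homogeneous (H z) hz) (Ne.symm h2)
    have h4 : Finsupp.weight (1 : Fin (N + 1) → ℕ) β = Finsupp.degree β := (congrFun (congrArg DFunLike.coe (Finsupp.degree_eq_weight_one (σ := Fin (N + 1)) (R := ℕ))) β).symm
    exact ⟨by rw [← h3, h4, Finsupp.degree_eq_sum], Finset.subset_univ _⟩

theorem fibre_ext (Hs : IsHyp Λ X F S) {H : ℂ → Vd (k + 1)} (hH : AnalyticAt ℂ H 0) (hH0 : (H 0 : Cn (k + 1) ⧸ Λ) ∈ S) {g : ℂ → PN N} (hg : HolomorphicInto g puncturedDisc)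
    (hT : ∀ᶠ z in 𝓝[≠] (0 : ℂ), ((H z : Cn (k + 1) ⧸ Λ), g z) ∈ outside Λ X F) (hS : ∀ᶠ z in 𝓝[≠] (0 : ℂ), (H z : Cn (k + 1) ⧸ Λ) ∉ S) :
    ∃ g' : ℂ → PN N, HolomorphicInto g' (ball 0 1) ∧ ∀ z ∈ puncturedDisc, g' z = g z := by
  classical
  obtain ⟨ρ, s, G, dG, hρ, hG, hX⟩ := Hs.analytic (H 0)
  have h1 : ∀ i, ∃ G' : MvPolynomial (Fin (N + 1)) MF, ∀ᶠ z in 𝓝 (0 : ℂ), G'.map (ev z) = G i (H z) := fun i => mf_form isOpen_ball (hG i) hH (mem_ball_self hρ)
  have h2 : ∀ j, ∃ F' : MvPolynomial (Fin (N + 1)) MF, ∀ᶠ z in 𝓝 (0 : ℂ), F'.map (ev z) = F j (H z) := fun j => by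
    obtain ⟨d, hd⟩ := sections_form Hs j
    exact mf_form isOpen_univ hd hH (Set.mem_univ _)
  choose G' hG' using h1
  choose F' hF' using h2
  choose dF hdF using sections_form Hs
  have hball : ∀ᶠ z in 𝓝 (0 : ℂ), H z ∈ ball (H 0) ρ := hH.continuousAt.eventually (isOpen_ball.mem_nhds (mem_ball_self hρ))
  have hGall : ∀ᶠ z in 𝓝[≠] (0 : ℂ), ∀ i, (G' i).map (ev z) = G i (H z) := (Filter.eventually_all.2 hG').filter_mono nhdsWithin_le_nhds
  have hFall : ∀ᶠ z in 𝓝[≠] (0 : ℂ), ∀ j, (F' j).map (ev z) = F j (H z) := (Filter.eventually_all.2 hF').filter_mono nhdsWithin_le_nhds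
  have hball' : ∀ᶠ z in 𝓝[≠] (0 : ℂ), H z ∈ ball (H 0) ρ := hball.filter_mono nhdsWithin_le_nhds
  have hpd : ∀ᶠ z in 𝓝[≠] (0 : ℂ), z ∈ puncturedDisc := by
    filter_upwards [nhdsWithin_le_nhds (isOpen_ball.mem_nhds (mem_ball_self (x := (0 : ℂ)) one_pos)), self_mem_nhdsWithin] with z h1 h2
    exact ⟨h1, h2⟩
  have hPa : ∀ᶠ z in 𝓝[≠] (0 : ℂ), Pa (fun i z => (g z).rep i) z := by
    filter_upwards [hpd] with z hz
    obtain ⟨φ, h1, h2⟩ := hg z hz
    refine ⟨fun i ζ => φ ζ i, fun i => analyticAt_pi_iff.mp h1 i, ?_⟩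
    filter_upwards [h2] with ζ hζ
    obtain ⟨h3, h4⟩ := hζ
    obtain ⟨a, ha⟩ := Projectivization.exists_smul_eq_mk_rep ℂ (φ ζ) h3
    refine ⟨a, a.ne_zero, fun i => ?_⟩
    rw [h4, ← ha]
    rfl
  obtain ⟨κ, e, he, hhyp⟩ := Hs.overSpecial (H 0) hH0
  have hhyp' : ∀ᶠ z in 𝓝[≠] (0 : ℂ), (H z : Cn (k + 1) ⧸ Λ) ∉ S → HasHypersurfaces Λ X F κ e (H z) := (hH.continuousAt.eventually hhyp).filter_mono nhdsWithin_le_nhds
  obtain ⟨l, hl, hk⟩ := punct_coord (κ := κ) he G' dG (fun i => by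
    filter_upwards [hGall, hball'] with z h1 h2
    rw [h1 i]
    exact (hG i).homogeneous _ h2) (∏ j, F' j) (fun i z => (g z).rep i) hPa (by
    refine Filter.Eventually.of_forall fun z => ?_
    by_contra hcon
    push Not at hcon
    exact (g z).rep_nonzero (funext hcon)) (fun i => by
    filter_upwards [hGall, hball', hT] with z h1 h2 h3
    rw [h1 i]
    exact (hX _ h2 (g z)).1 h3.1 i) (by
    filter_upwards [hFall, hT] with z h1 h2
    rw [map_prod, map_prod]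
    refine Finset.prod_ne_zero_iff.2 fun j _ => ?_
    rw [h1 j]
    exact h2.2 (H z) rfl j) (by
    filter_upwards [hGall, hFall, hball', hS, hhyp'] with z h1 h2 h3 h4 h5
    obtain ⟨Q, hQ, hQF, hgp⟩ := h5 h4
    have hmem : ∀ (x : Fin (N + 1) → ℂ) (hx : x ≠ 0), (∀ i, eval x ((G' i).map (ev z)) = 0) → ((H z : Cn (k + 1) ⧸ Λ), Projectivization.mk ℂ x hx) ∈ X := by
      intro x hx h5
      refine (hX _ h3 _).2 fun i => ?_
      rw [van_mk ((hG i).homogeneous _ h3), ← h1 i]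
      exact h5 i
    refine ⟨Q, hQ, fun s x hx h5 h6 => ?_, fun I hI x h5 h6 => ?_⟩
    · obtain ⟨j, hj⟩ := hQF s (Projectivization.mk ℂ x hx) (hmem x hx h5) (by
        rw [van_mk (hQ s)]
        exact h6)
      rw [van_mk ((hdF j).homogeneous _ (Set.mem_univ _))] at hj
      rw [map_prod, map_prod]
      exact Finset.prod_eq_zero (Finset.mem_univ j) (by rw [h2 j]; exact hj)
    · by_contra hx
      obtain ⟨s, hs, h7⟩ := hgp I hI (Projectivization.mk ℂ x hx) (hmem x hx h5)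
      rw [van_mk (hQ s)] at h7
      exact h7 (h6 s hs))
  refine Pool.Agent.H62.FC.exists_extension hg (i₀ := l) ?_ fun i => (hk i).punct ?_
  · filter_upwards [ev_ev hl] with z hz using hz.filter_mono nhdsWithin_le_nhds
  · have h3 := va_quo hPa (isHomogeneous_X MF i) (isHomogeneous_X MF l) (by
      filter_upwards [hl] with z hz
      unfold va
      rw [map_X, eval_X]
      exact hz)
    filter_upwards [h3] with z hz
    have h4 : (fun z => (g z).rep i / (g z).rep l) = fun z => va (fun i z => (g z).rep i) (MvPolynomial.X i) z / va (fun i z => (g z).rep i) (MvPolynomial.X l) z := by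
      funext ζ
      unfold va
      rw [map_X, map_X, eval_X, eval_X]
    rw [h4]
    exact hz

end Pool.Agent.HE
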