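import Pool.Agent.HE.F.Crv
import Pool.Agent.HE.Gen
import Pool.Agent.G4.Simp
import Mathlib.Algebra.Order.Antidiag.Finsupp

/-!
# HE F Fro: the data from the hypotheses of the final theorem
-/

set_option autoImplicit false

open Topology Filter Metric

namespace Pool.Agent.HE

open Pool.Agent.H17 (PN VanishesAt HolomorphicInto puncturedDisc)
open Pool.Agent.H36.BP (EN fs wd)
open Pool.Agent.H62.EF (MN pr)
open Pool.Agent.AD (Vd)
open Pool.Agent.TG (Lat Gd)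
open Pool.Agent.G3 (wt TT LLift)
open Pool.Agent.PXF (Cn IsSimple HolomorphicIntoTorus)
open Pool.Agent.HEF

variable {N k q r κ e : ℕ} {Λ : AddSubgroup (Vd (k + 1))}

/-- the form as a function -/
noncomputable def fn (F : Vd (k + 1) → MvPolynomial (Fin (N + 1)) ℂ) (p : Vd (k + 1) × EN N) : ℂ := MvPolynomial.eval p.2.ofLp (F p.1)

theorem eval_smul' {n : ℕ} {P : MvPolynomial (Fin (N + 1)) ℂ} (hP : P.IsHomogeneous n) (c : ℂ) (x : Fin (N + 1) → ℂ) : MvPolynomial.eval (c • x) P = c ^ n * MvPolynomial.eval x P := by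
  classical
  rw [MvPolynomial.eval_eq', MvPolynomial.eval_eq', Finset.mul_sum]
  refine Finset.sum_congr rfl fun α hα => ?_
  have h1 := hP (MvPolynomial.mem_support_iff.1 hα)
  have h2 : Finsupp.weight (1 : Fin (N + 1) → ℕ) α = Finsupp.degree α := (congrFun (congrArg DFunLike.coe (Finsupp.degree_eq_weight_one (σ := Fin (N + 1)) (R := ℕ))) α).symm
  have h3 : ∏ i, (c • x) i ^ α i = c ^ n * ∏ i, x i ^ α i := by
    simp only [Pi.smul_apply, smul_eq_mul, mul_pow]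
    rw [Finset.prod_mul_distrib, Finset.prod_pow_eq_pow_sum]
    congr 2
    rw [← h1, h2, Finsupp.degree_eq_sum]
  rw [h3]
  ring

/-- zeros in terms of representatives -/
theorem van_mk {n : ℕ} {P : MvPolynomial (Fin (N + 1)) ℂ} (hP : P.IsHomogeneous n) {x : Fin (N + 1) → ℂ} (hx : x ≠ 0) : VanishesAt P (Projectivization.mk ℂ x hx) ↔ MvPolynomial.eval x P = 0 := by
  obtain ⟨a, ha⟩ := Projectivization.exists_smul_eq_mk_rep ℂ x hx
  unfold VanishesAt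
  rw [← ha]
  have h1 : MvPolynomial.eval ((a : ℂ) • x) P = (a : ℂ) ^ n * MvPolynomial.eval x P := eval_smul' hP _ _
  have h2 : (a • x : Fin (N + 1) → ℂ) = (a : ℂ) • x := rfl
  rw [h2, h1, mul_eq_zero, or_iff_right (pow_ne_zero _ a.ne_zero)]

theorem fn_hom {U : Set (Vd (k + 1))} {F : Vd (k + 1) → MvPolynomial (Fin (N + 1)) ℂ} {d : ℕ} (hF : IsHolomorphicForm U F d) {y : Vd (k + 1)} (hy : y ∈ U) (c : ℂ) (x : EN N) :
    fn F (y, c • x) = c ^ d * fn F (y, x) := eval_smul' (hF.homogeneous y hy) c x.ofLp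

theorem fn_diff {U : Set (Vd (k + 1))} {F : Vd (k + 1) → MvPolynomial (Fin (N + 1)) ℂ} {d : ℕ} (hF : IsHolomorphicForm U F d) : DifferentiableOn ℂ (fn F) (U ×ˢ Set.univ) := by
  classical
  have h1 : ∀ p ∈ U ×ˢ (Set.univ : Set (EN N)), fn F p = ∑ α ∈ Finset.finsuppAntidiag (Finset.univ : Finset (Fin (N + 1))) d, (F p.1).coeff α * ∏ i, p.2.ofLp i ^ α i := by
    rintro ⟨y, x⟩ ⟨hy, -⟩
    unfold fn
    simp only
    rw [MvPolynomial.eval_eq']
    refine Finset.sum_subset (fun α hα => ?_) fun α _ hα => ?_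
    · rw [Finset.mem_finsuppAntidiag]
      have h2 := hF.homogeneous y hy (MvPolynomial.mem_support_iff.1 hα)
      have h3 : Finsupp.weight (1 : Fin (N + 1) → ℕ) α = Finsupp.degree α := (congrFun (congrArg DFunLike.coe (Finsupp.degree_eq_weight_one (σ := Fin (N + 1)) (R := ℕ))) α).symm
      exact ⟨by rw [← h2, h3, Finsupp.degree_eq_sum], Finset.subset_univ _⟩
    · rw [MvPolynomial.notMem_support_iff.1 hα, zero_mul]
  refine DifferentiableOn.congr ?_ h1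
  refine DifferentiableOn.fun_sum fun α _ => DifferentiableOn.mul ?_ ?_
  · exact (hF.holomorphic α).comp differentiable_fst.differentiableOn fun p hp => hp.1
  · have h2 : ∀ i, Differentiable ℂ fun p : Vd (k + 1) × EN N => p.2.ofLp i := by
      intro i
      have h3 : Differentiable ℂ fun x : EN N => x.ofLp i := (EuclideanSpace.proj i : EN N →L[ℂ] ℂ).differentiable
      exact h3.comp differentiable_snd
    have h4 : ∀ T : Finset (Fin (N + 1)), Differentiable ℂ fun p : Vd (k + 1) × EN N => ∏ i ∈ T, p.2.ofLp i ^ α i := by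
      intro T
      induction T using Finset.induction_on with
      | empty => simp
      | insert a T ha ih =>
        have h5 : (fun p : Vd (k + 1) × EN N => ∏ i ∈ insert a T, p.2.ofLp i ^ α i) = fun p => p.2.ofLp a ^ α a * ∏ i ∈ T, p.2.ofLp i ^ α i := funext fun p => Finset.prod_insert ha
        rw [h5]
        exact ((h2 a).pow (α a)).mul ih
    exact (h4 _).differentiableOn

/-- the cone of `X` -/
def cX (Λ : AddSubgroup (Vd (k + 1))) (X : Set ((Cn (k + 1) ⧸ Λ) × PN N)) : Set (Vd (k + 1) × EN N) :=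
  {p | ∀ h : p.2.ofLp ≠ 0, ((p.1 : Cn (k + 1) ⧸ Λ), Projectivization.mk ℂ p.2.ofLp h) ∈ X}

/-- the preimage of `S` -/
def cS (Λ : AddSubgroup (Vd (k + 1))) (S : Set (Cn (k + 1) ⧸ Λ)) : Set (Vd (k + 1)) := {y | (y : Cn (k + 1) ⧸ Λ) ∈ S}

theorem cls_add {y l : Vd (k + 1)} (hl : l ∈ Λ) : ((y + l : Vd (k + 1)) : Cn (k + 1) ⧸ Λ) = (y : Cn (k + 1) ⧸ Λ) := by
  rw [eq_comm, QuotientAddGroup.eq]
  simpa using hl

theorem cX_closed {X : Set ((Cn (k + 1) ⧸ Λ) × PN N)} (hX : IsAnalytic Λ X) : IsClosed (cX Λ X) := by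
  rw [← isOpen_compl_iff, isOpen_iff_mem_nhds]
  rintro ⟨y₀, x₀⟩ hp
  have h0 : ∃ h : x₀.ofLp ≠ 0, ((y₀ : Cn (k + 1) ⧸ Λ), Projectivization.mk ℂ x₀.ofLp h) ∉ X := by
    by_contra hcon
    push Not at hcon
    exact hp hcon
  obtain ⟨h0, h1⟩ := h0
  obtain ⟨ρ, s, G, d, hρ, hG, hX⟩ := hX y₀
  rw [hX y₀ (mem_ball_self hρ)] at h1
  push Not at h1
  obtain ⟨i, hi⟩ := h1
  rw [van_mk ((hG i).homogeneous y₀ (mem_ball_self hρ))] at hi
  have h2 : ContinuousAt (fn (G i)) (y₀, x₀) := by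
    refine ((fn_diff (hG i)).continuousOn).continuousAt ?_
    exact (isOpen_ball.prod isOpen_univ).mem_nhds ⟨mem_ball_self hρ, Set.mem_univ _⟩
  have h3 : ∀ᶠ p in 𝓝 (y₀, x₀), fn (G i) p ≠ 0 := h2.eventually_ne hi
  have h4 : ∀ᶠ p : Vd (k + 1) × EN N in 𝓝 (y₀, x₀), p.1 ∈ ball y₀ ρ := continuousAt_fst.eventually (isOpen_ball.mem_nhds (mem_ball_self hρ))
  have h5 : ∀ᶠ p : Vd (k + 1) × EN N in 𝓝 (y₀, x₀), p.2 ≠ 0 := by
    have h6 : x₀ ≠ 0 := by
      rintro rfl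
      exact h0 rfl
    exact continuousAt_snd.eventually_ne h6
  filter_upwards [h3, h4, h5] with p h6 h7 h8 h9
  have h10 := h9 (ofLp_ne h8)
  rw [hX p.1 h7] at h10
  have h11 := h10 i
  rw [van_mk ((hG i).homogeneous p.1 h7)] at h11
  exact h6 h11

theorem cX_per {X : Set ((Cn (k + 1) ⧸ Λ) × PN N)} {l : Vd (k + 1)} (hl : l ∈ Λ) {y : Vd (k + 1)} {x : EN N} (h : (y, x) ∈ cX Λ X) : (y + l, x) ∈ cX Λ X := by
  intro h'
  show (((y + l : Vd (k + 1)) : Cn (k + 1) ⧸ Λ), Projectivization.mk ℂ x.ofLp h') ∈ X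
  rw [cls_add hl]
  exact h h'

theorem cX_smul {X : Set ((Cn (k + 1) ⧸ Λ) × PN N)} (c : ℂ) {y : Vd (k + 1)} {x : EN N} (h : (y, x) ∈ cX Λ X) : (y, c • x) ∈ cX Λ X := by
  intro h'
  have hc : c ≠ 0 := by
    rintro rfl
    exact h' (by rw [zero_smul]; rfl)
  have hx : x.ofLp ≠ 0 := by
    intro h1
    apply h'
    show c • x.ofLp = 0
    rw [h1, smul_zero]
  have h2 : Projectivization.mk ℂ (c • x).ofLp h' = Projectivization.mk ℂ x.ofLp hx := by
    rw [Projectivization.mk_eq_mk_iff']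
    exact ⟨c, rfl⟩
  show ((y : Cn (k + 1) ⧸ Λ), Projectivization.mk ℂ (c • x).ofLp h') ∈ X
  rw [h2]
  exact h hx

theorem cS_closed {S : Set (Cn (k + 1) ⧸ Λ)} (hS : IsAnalyticIn Λ S) : IsClosed (cS Λ S) := by
  rw [← isOpen_compl_iff, isOpen_iff_mem_nhds]
  intro y₀ hy₀
  obtain ⟨s, f, hf, h1⟩ := hS y₀
  have h2 := h1.self_of_nhds
  have h3 : ¬ ∀ i, f i y₀ = 0 := fun h => hy₀ (h2.2 h)
  push Not at h3
  obtain ⟨i, hi⟩ := h3
  filter_upwards [h1, (hf i).continuousAt.eventually_ne hi] with y h4 h5 h6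
  exact h5 (h4.1 h6 i)

theorem cS_an {S : Set (Cn (k + 1) ⧸ Λ)} (hS : IsAnalyticIn Λ S) : Pool.Agent.G4.AnOff ∅ (cS Λ S) := by
  intro y₀ _
  obtain ⟨s, f, hf, h1⟩ := hS y₀
  refine ⟨s, fun y i => f i y, analyticAt_pi_iff.2 hf, ?_⟩
  filter_upwards [h1] with y hy
  refine Iff.trans hy ⟨fun h => funext h, fun h i => congrFun h i⟩

theorem cS_iso (hΛ : Lat Λ) {S : Set (Cn (k + 1) ⧸ Λ)} (hS : IsAnalyticIn Λ S)
    (h : (IsSimple Λ ∧ S ≠ Set.univ) ∨ ∀ a y : Cn (k + 1), a ≠ 0 → ∃ z : ℂ, ((y + z • a : Cn (k + 1)) : Cn (k + 1) ⧸ Λ) ∉ S) {a : Vd (k + 1)} (ha : a ≠ 0) (y : Vd (k + 1)) :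
    ∀ᶠ z in 𝓝[≠] (0 : ℂ), y + z • a ∉ cS Λ S := by
  rcases h with ⟨h1, h2⟩ | h
  · obtain ⟨t, ht⟩ := (Set.ne_univ_iff_exists_notMem S).1 h2
    obtain ⟨y₀, rfl⟩ := QuotientAddGroup.mk_surjective t
    have h3 := Pool.Agent.G4.ldi_of hΛ (Pool.Agent.G4.simp_of_span h1) (cS_an hS) (fun y hy l hl => by
      show ((y + l : Vd (k + 1)) : Cn (k + 1) ⧸ Λ) ∈ S
      rw [cls_add hl]
      exact hy) (y₀ := y₀) ht a ha y 0
    filter_upwards [h3] with z hz
    rwa [add_comm y]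
  · by_contra hcon
    have h1 : ∃ᶠ w in 𝓝[≠] (0 : ℂ), w • a + y ∈ cS Λ S := by
      intro h2
      refine hcon ?_
      filter_upwards [h2] with z hz
      rwa [add_comm y]
    have h2 := Pool.Agent.G4.along isClosed_empty (cS_an hS) (fun z => Eventually.of_forall fun _ h => h) (z₀ := 0) (fun h => h) h1
    obtain ⟨z, hz⟩ := h a y ha
    apply hz
    have h3 := h2 z fun h => h
    rw [add_comm y]
    exact h3

end Pool.Agent.HE
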