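import Pool.Agent.HE.F.Fro

/-!
# HE F FroB: the data from the hypotheses of the final theorem: the structure `HD`
-/

set_option autoImplicit false

open Topology Filter Metric

namespace Pool.Agent.HE

open Pool.Agent.H17 (PN VanishesAt HolomorphicInto puncturedDisc)
open Pool.Agent.H36.BP (EN fs wd)
open Pool.Agent.H62.EF (MN pr)
open Pool.Agent.AD (Vd)
open Pool.Agent.TG (Lat Gd)
open Pool.Agent.G3 (wt TT LLift)
open Pool.Agent.PXF (Cn IsSimple HolomorphicIntoTorus)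
open Pool.Agent.HEF

variable {N k q r : ℕ} {Λ : AddSubgroup (Vd (k + 1))}

/-- weights with more summands -/
theorem pad {r R : ℕ} (hr : r ≤ R) (W : Fin r → Vd (k + 1) →L[ℂ] ℂ) : ∃ W' : Fin R → Vd (k + 1) →L[ℂ] ℂ, (∀ y, wt W' y = wt W y) ∧ ∀ y, (∀ s, W' s y = 0) → ∀ s, W s y = 0 := by
  refine ⟨fun s => if h : (s : ℕ) < r then W ⟨s, h⟩ else 0, fun y => ?_, fun y h s => ?_⟩
  · unfold wt
    set G : ℕ → ℝ := fun s => if h : s < r then ‖W ⟨s, h⟩ y‖ ^ 2 else 0 with hG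
    have h1 : ∀ s : Fin R, ‖(if h : (s : ℕ) < r then W ⟨s, h⟩ else 0 : Vd (k + 1) →L[ℂ] ℂ) y‖ ^ 2 = G s := by
      intro s
      rw [hG]
      simp only
      split_ifs with h
      · rfl
      · simp
    have h2 : ∀ s : Fin r, ‖W s y‖ ^ 2 = G s := by
      intro s
      rw [hG]
      simp only
      rw [dif_pos s.2]
    rw [Finset.sum_congr rfl fun s _ => h1 s, Finset.sum_congr rfl fun s _ => h2 s, ← Finset.sum_range, ← Finset.sum_range]
    symm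
    refine Finset.sum_subset (Finset.range_mono hr) fun s _ hs => ?_
    rw [Finset.mem_range] at hs
    rw [hG]
    simp only
    rw [dif_neg hs]
  · have h1 := h ⟨s, s.2.trans_le hr⟩
    beta_reduce at h1
    rw [dif_pos s.2] at h1
    exact h1

theorem per_of {F : Vd (k + 1) → MvPolynomial (Fin (N + 1)) ℂ} {W : Fin r → Vd (k + 1) →L[ℂ] ℂ} (h : IsSection Λ F W) {l : Vd (k + 1)} (hl : l ∈ Λ) (y : Vd (k + 1)) :
    ∃ e : ℂ, ‖e‖ * Real.exp (-wt W (y + l)) = Real.exp (-wt W y) ∧ ∀ x : EN N, fn F (y + l, x) = e * fn F (y, x) := by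
  obtain ⟨e, he, h1⟩ := h.quasiPeriodic l hl y
  refine ⟨e, ?_, fun x => ?_⟩
  · rw [he, ← Real.exp_add]
    unfold wt
    congr 1
    ring
  · unfold fn
    simp only
    rw [h1, map_mul, MvPolynomial.eval_C]

theorem minor_le (x v : EN N) (i j : Fin (N + 1)) : ‖x i * v j - x j * v i‖ ≤ wd x v := by
  by_cases hij : i = j
  · subst hij
    rw [mul_comm, sub_self, norm_zero]
    exact Pool.Agent.H36.BP.wd_nonneg x v
  · have h1 := Pool.Agent.H36.BP.gram_proj (a := EuclideanSpace.single i (1 : ℂ)) (b := EuclideanSpace.single j (1 : ℂ)) (by rw [EuclideanSpace.norm_single, norm_one])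
      (by rw [EuclideanSpace.norm_single, norm_one]) (by
        rw [EuclideanSpace.inner_single_left, map_one, one_mul]
        exact Pi.single_eq_of_ne (M := fun _ => ℂ) hij _) x v
    simp only [EuclideanSpace.inner_single_left, map_one, one_mul] at h1
    exact h1

/-- a lift of bounded derivative -/
theorem brody_of {G : ℂ → EN N} (hG : Differentiable ℂ G) (hG0 : ∀ z, G z ≠ 0) {L : ℝ} (hL : ∀ z, fs (G z) (deriv G z) ≤ L) :
    IsBrodyCurve fun z => Projectivization.mk ℂ (G z).ofLp (ofLp_ne (hG0 z)) := by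
  have hd : ∀ z, HasDerivAt (fun z => (G z).ofLp) (deriv G z).ofLp z := by
    intro z
    exact ((PiLp.continuousLinearEquiv 2 ℂ (fun _ : Fin (N + 1) => ℂ)).toContinuousLinearMap.hasFDerivAt (x := G z)).comp_hasDerivAt z (hG z).hasDerivAt
  refine ⟨fun z => (G z).ofLp, L, fun z => (hd z).differentiableAt, fun z => ⟨⟨ofLp_ne (hG0 z), rfl⟩, fun i j => ?_⟩⟩
  rw [(hd z).deriv]
  refine (minor_le (G z) (deriv G z) i j).trans ?_
  have h4 : wd (G z) (deriv G z) = fs (G z) (deriv G z) * ‖G z‖ ^ 2 := by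
    unfold fs
    rw [div_mul_cancel₀]
    exact pow_ne_zero _ (norm_ne_zero_iff.2 (hG0 z))
  rw [h4, EuclideanSpace.norm_sq_eq]
  exact mul_le_mul_of_nonneg_right (hL z) (Finset.sum_nonneg fun i _ => by positivity)

/-- `HD` from the hypotheses of the final theorem and the condition on sections -/
theorem hd_of0 (hΛ : Lat Λ) {X : Set ((Cn (k + 1) ⧸ Λ) × PN N)} {F : Fin q → Cn (k + 1) → MvPolynomial (Fin (N + 1)) ℂ} {S : Set (Cn (k + 1) ⧸ Λ)} (hXan : IsAnalytic Λ X) (hsect : ∀ j, IsSemipositive Λ (F j))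
    (hspec : IsAnalyticIn Λ S) (hline : (IsSimple Λ ∧ S ≠ Set.univ) ∨ ∀ a y : Cn (k + 1), a ≠ 0 → ∃ z : ℂ, ((y + z • a : Cn (k + 1)) : Cn (k + 1) ⧸ Λ) ∉ S)
    (hfib : ∀ y : Cn (k + 1), (y : Cn (k + 1) ⧸ Λ) ∉ S → HasHyperbolicFibre Λ X F y)
    (hno : ∀ (y a : Vd (k + 1)), a ≠ 0 → ∀ g : ℂ → MN N, (∀ z : ℂ, y + z • a ∉ cS Λ S → LLift g z) → (∀ z : ℂ, y + z • a ∉ cS Λ S → ∀ x : EN N, x ≠ 0 → pr x = g z → (y + z • a, x) ∈ cX Λ X) →
      (∀ j, (∀ z : ℂ, y + z • a ∉ cS Λ S → ∀ x : EN N, x ≠ 0 → pr x = g z → fn (F j) (y + z • a, x) = 0) ∨ ∀ z : ℂ, y + z • a ∉ cS Λ S → ∀ x : EN N, x ≠ 0 → pr x = g z → fn (F j) (y + z • a, x) ≠ 0) →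
      (∃ (𝒰 : Ultrafilter ℕ) (w : ℕ → ℂ → EN N) (h : ℕ → ℂ → Vd (k + 1)), LS (cX Λ X) (fun j => fn (F j)) (cS Λ S) y a 𝒰 w h g) →
      ∃ j, IsAmple Λ (F j) ∧ ¬ ∀ z : ℂ, y + z • a ∉ cS Λ S → ∀ x : EN N, x ≠ 0 → pr x = g z → fn (F j) (y + z • a, x) = 0) :
    ∃ (r : ℕ) (W : Fin q → Fin r → Vd (k + 1) →L[ℂ] ℂ) (d : Fin q → ℕ), HD Λ (cS Λ S) (cX Λ X) (fun j => fn (F j)) d W := by
  classical
  -- the weights
  have h1 : ∀ j, ∃ (r : ℕ) (W : Fin r → Vd (k + 1) →L[ℂ] ℂ), IsSection Λ (F j) W ∧ (IsAmple Λ (F j) → ∀ y, (∀ s, W s y = 0) → y = 0) := by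
    intro j
    by_cases hj : IsAmple Λ (F j)
    · obtain ⟨r, W, h2, h3⟩ := hj
      exact ⟨r, W, h3, fun _ => h2⟩
    · obtain ⟨r, W, h3⟩ := hsect j
      exact ⟨r, W, h3, fun h => absurd h hj⟩
  choose r W hW hpos using h1
  obtain ⟨R, hR⟩ : ∃ R, ∀ j, r j ≤ R := ⟨∑ j, r j, fun j => Finset.single_le_sum (f := r) (fun _ _ => Nat.zero_le _) (Finset.mem_univ j)⟩
  have h2 : ∀ j, ∃ W' : Fin R → Vd (k + 1) →L[ℂ] ℂ, (∀ y, wt W' y = wt (W j) y) ∧ ∀ y, (∀ s, W' s y = 0) → ∀ s, W j s y = 0 := fun j => pad (hR j) (W j)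
  choose W' hW' hW'' using h2
  have h3 : ∀ j, ∃ d, 0 < d ∧ IsHolomorphicForm Set.univ (F j) d := fun j => (hW j).form
  choose d hd0 hd using h3
  have hSinv : ∀ y ∈ cS Λ S, ∀ l ∈ Λ, y + l ∈ cS Λ S := by
    intro y hy l hl
    show ((y + l : Vd (k + 1)) : Cn (k + 1) ⧸ Λ) ∈ S
    rw [cls_add hl]
    exact hy
  refine ⟨R, W', d, ⟨hΛ, cX_closed hXan, fun l hl y x h => cX_per hl h, fun c y x h => cX_smul c h, fun j => ?_, hd0, fun j c y x => fn_hom (hd j) (Set.mem_univ y) c x, fun j l hl y => ?_, cS_closed hspec, hSinv,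
    fun a ha y => cS_iso hΛ hspec hline ha y, fun y a ha g hl hX hs hLS => ?_, fun y₀ hy₀ => ?_⟩⟩
  · have h4 := fn_diff (hd j)
    rw [Set.univ_prod_univ, differentiableOn_univ] at h4
    exact h4
  · rw [hW', hW']
    exact per_of (hW j) hl y
  · -- the sections
    obtain ⟨j, hj, hv⟩ := hno y a ha g hl hX hs hLS
    exact ⟨j, fun y' h4 => hpos j hj y' (hW'' j y' h4), hv⟩
  · -- the pieces
    obtain ⟨ρ, m, Q, e, hρ, hQ, hQF, hgp⟩ := hfib y₀ hy₀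
    have hy₀b : y₀ ∈ ball y₀ ρ := mem_ball_self hρ
    refine ⟨m, fun s => fn (Q s), e, ρ, ⟨hρ, fun s => fn_diff (hQ s), fun s y hy c x => fn_hom (hQ s) hy c x, fun s y hy x hx hxX hF h4 => ?_, fun G hG hG0 hGX hL hs z w => ?_⟩⟩
    · obtain ⟨j, hj⟩ := hQF s y hy (Projectivization.mk ℂ x.ofLp (ofLp_ne hx)) (hxX (ofLp_ne hx)) (by
        rw [van_mk ((hQ s).homogeneous y hy)]
        exact h4)
      rw [van_mk ((hd j).homogeneous y (Set.mem_univ y))] at hj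
      exact hF j hj
    · obtain ⟨L, hL⟩ := hL
      have hv : ∀ s z, VanishesAt (Q s y₀) (Projectivization.mk ℂ (G z).ofLp (ofLp_ne (hG0 z))) ↔ fn (Q s) (y₀, G z) = 0 := fun s z => van_mk ((hQ s).homogeneous y₀ hy₀b) (ofLp_ne (hG0 z))
      have h5 := hgp _ (brody_of hG hG0 hL) (fun z => hGX z (ofLp_ne (hG0 z))) (fun s => by
        rcases hs s with h6 | h6
        · exact Or.inl fun z => (hv s z).2 (h6 z)
        · exact Or.inr fun z h7 => h6 z ((hv s z).1 h7)) z w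
      rw [Projectivization.mk_eq_mk_iff'] at h5
      obtain ⟨c, hc⟩ := h5
      refine ⟨c, ?_⟩
      ext i
      exact (congrFun hc i).symm

theorem hd_off (hΛ : Lat Λ) {X : Set ((Cn (k + 1) ⧸ Λ) × PN N)} {F : Fin q → Cn (k + 1) → MvPolynomial (Fin (N + 1)) ℂ} {S : Set (Cn (k + 1) ⧸ Λ)} (H : IsHyperbolicOff Λ X F S) :
    ∃ (r : ℕ) (W : Fin q → Fin r → Vd (k + 1) →L[ℂ] ℂ) (d : Fin q → ℕ), HD Λ (cS Λ S) (cX Λ X) (fun j => fn (F j)) d W := by
  classical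
  have hdd : ∀ j, ∃ d, 0 < d ∧ IsHolomorphicForm Set.univ (F j) d := by
    intro j
    obtain ⟨r, W, h⟩ := H.sections j
    exact h.form
  choose d hd0 hd using hdd
  refine hd_of0 hΛ H.analytic H.sections H.special H.noLines H.fibres fun y a ha g hl hX hs _ => ?_
  have hsurj : ∀ z : ℂ, ∃ x : EN N, x ≠ 0 ∧ (y + z • a ∉ cS Λ S → pr x = g z) := by
    intro z
    by_cases hz : y + z • a ∈ cS Λ S
    · exact ⟨EuclideanSpace.single 0 1, by simp, fun h => absurd hz h⟩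
    · obtain ⟨Φ, -, h4⟩ := hl z hz
      exact ⟨Φ z, h4.self_of_nhds.1, fun _ => h4.self_of_nhds.2.symm⟩
  choose x hx0 hxg using hsurj
  obtain ⟨g', hg'⟩ : ∃ g' : ℂ → PN N, g' = fun z => Projectivization.mk ℂ (x z).ofLp (ofLp_ne (hx0 z)) := ⟨_, rfl⟩
  -- zeros
  have hvan : ∀ j (z : ℂ), y + z • a ∉ cS Λ S → (VanishesAt (F j (y + z • a)) (g' z) ↔ fn (F j) (y + z • a, x z) = 0) := by
    intro j z _
    rw [hg']
    exact van_mk ((hd j).homogeneous _ (Set.mem_univ _)) (ofLp_ne (hx0 z))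
  have hind : ∀ j (z : ℂ), y + z • a ∉ cS Λ S → ∀ v : EN N, v ≠ 0 → pr v = g z → (fn (F j) (y + z • a, v) = 0 ↔ fn (F j) (y + z • a, x z) = 0) := by
    intro j z hz v hv hvg
    obtain ⟨c, hc0, hc⟩ := (Pool.Agent.H62.EF.pr_eq_iff hv (hx0 z)).1 (hvg.trans (hxg z hz).symm)
    rw [hc, fn_hom (hd j) (Set.mem_univ _)]
    have hc' : c ≠ 0 := by
      rintro rfl
      rw [zero_smul] at hc
      exact hv hc
    rw [mul_eq_zero, or_iff_right (pow_ne_zero _ hc')]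
  have hsec : IsSectionOver Λ X F S y a g' := by
    refine ⟨fun z₀ hz₀ => ?_, fun z hz => ?_, fun j => ?_⟩
    · obtain ⟨Φ, h4, h5⟩ := hl z₀ hz₀
      have hop : ∀ᶠ z in 𝓝 z₀, y + z • a ∉ cS Λ S := by
        have h6 : Continuous fun z : ℂ => y + z • a := by fun_prop
        exact ((cS_closed H.special).isOpen_compl.preimage h6).mem_nhds hz₀
      refine ⟨fun z => (Φ z).ofLp, ?_, ?_⟩
      · exact ((PiLp.continuousLinearEquiv 2 ℂ (fun _ : Fin (N + 1) => ℂ)).toContinuousLinearMap.analyticAt (Φ z₀)).comp h4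
      · filter_upwards [h5, hop] with z h6 h7
        refine ⟨ofLp_ne h6.1, ?_⟩
        rw [hg']
        simp only
        rw [Projectivization.mk_eq_mk_iff']
        obtain ⟨c, hc0, hc⟩ := (Pool.Agent.H62.EF.pr_eq_iff (hx0 z) h6.1).1 ((hxg z h7).trans h6.2)
        exact ⟨c, by rw [hc]; rfl⟩
    · have h4 := hX z hz (x z) (hx0 z) (hxg z hz)
      rw [hg']
      exact h4 (ofLp_ne (hx0 z))
    · rcases hs j with h4 | h4
      · exact Or.inl fun z hz => (hvan j z hz).2 (h4 z hz _ (hx0 z) (hxg z hz))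
      · exact Or.inr fun z hz h5 => h4 z hz _ (hx0 z) (hxg z hz) ((hvan j z hz).1 h5)
  obtain ⟨j, hj, z, hz, hv⟩ := H.noSections y a g' ha hsec
  refine ⟨j, hj, fun h4 => hv ?_⟩
  exact (hvan j z hz).2 (h4 z hz _ (hx0 z) (hxg z hz))

/-- the hypotheses without the condition on sections, with the bound for discs -/
structure IsHyp (Λ : AddSubgroup (Vd (k + 1))) (X : Set ((Cn (k + 1) ⧸ Λ) × PN N)) (F : Fin q → Cn (k + 1) → MvPolynomial (Fin (N + 1)) ℂ) (S : Set (Cn (k + 1) ⧸ Λ)) : Prop where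
  analytic : IsAnalytic Λ X
  sections : ∀ j, IsSemipositive Λ (F j)
  special : IsAnalyticIn Λ S
  noLines : (IsSimple Λ ∧ S ≠ Set.univ) ∨ ∀ a y : Cn (k + 1), a ≠ 0 → ∃ z : ℂ, ((y + z • a : Cn (k + 1)) : Cn (k + 1) ⧸ Λ) ∉ S
  fibres : ∀ y : Cn (k + 1), (y : Cn (k + 1) ⧸ Λ) ∉ S → HasHyperbolicFibre Λ X F y
  overSpecial : ∀ y₀ : Cn (k + 1), (y₀ : Cn (k + 1) ⧸ Λ) ∈ S → ∃ κ e, 0 < e ∧ ∀ᶠ y : Cn (k + 1) in 𝓝 y₀, (y : Cn (k + 1) ⧸ Λ) ∉ S → HasHypersurfaces Λ X F κ e y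
  bound : ∃ C : ℝ, 0 < C ∧ ∀ (w : ℂ → EN N) (h : ℂ → Vd (k + 1)), Cw (cX Λ X) (fun j => fn (F j)) (ball 0 1) w h → ‖deriv h 0‖ ≤ C

theorem IsHyp.of_off (hΛ : Lat Λ) {X : Set ((Cn (k + 1) ⧸ Λ) × PN N)} {F : Fin q → Cn (k + 1) → MvPolynomial (Fin (N + 1)) ℂ} {S : Set (Cn (k + 1) ⧸ Λ)} (H : IsHyperbolicOff Λ X F S) : IsHyp Λ X F S := by
  obtain ⟨r, W, d, P⟩ := hd_off hΛ H
  exact ⟨H.analytic, H.sections, H.special, H.noLines, H.fibres, H.overSpecial, P.bound⟩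

/-- long curves near a line contradict the bound -/
theorem no_ls {X : Set (Vd (k + 1) × EN N)} {F : Fin q → Vd (k + 1) × EN N → ℂ} {D : Set (Vd (k + 1))} {C : ℝ}
    (hb : ∀ (w : ℂ → EN N) (h : ℂ → Vd (k + 1)), Cw X F (ball 0 1) w h → ‖deriv h 0‖ ≤ C) {y a : Vd (k + 1)} (ha : a ≠ 0) {𝒰 : Ultrafilter ℕ} {w : ℕ → ℂ → EN N} {h : ℕ → ℂ → Vd (k + 1)} {g : ℂ → MN N}
    (S : LS X F D y a 𝒰 w h g) : False := by
  have ha0 : 0 < ‖a‖ := norm_pos_iff.2 ha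
  have hC : 0 ≤ |C| := abs_nonneg C
  obtain ⟨R, hR⟩ : ∃ R : ℝ, R = 2 * (|C| + 1) / ‖a‖ + 2 := ⟨_, rfl⟩
  have hR2 : 2 ≤ R := by
    rw [hR]
    have : 0 ≤ 2 * (|C| + 1) / ‖a‖ := by positivity
    linarith
  have hR0 : 0 < R := by linarith
  have h1 : ∀ᶠ n in (𝒰 : Filter ℕ), ‖deriv (h n) 0‖ ≤ C / R := by
    filter_upwards [S.cv R] with n hn
    have hA : ∀ ζ : ℂ, HasDerivAt (fun ζ : ℂ => (R : ℂ) * ζ) (R : ℂ) ζ := by
      intro ζ
      simpa using (hasDerivAt_id ζ).const_mul (R : ℂ)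
    have hm : Set.MapsTo (fun ζ : ℂ => (R : ℂ) * ζ) (ball 0 1) (ball 0 R) := by
      intro ζ hζ
      rw [mem_ball_zero_iff] at hζ ⊢
      rw [norm_mul, Complex.norm_real, Real.norm_of_nonneg hR0.le]
      nlinarith
    have h2 := hb _ _ (hn.comp (fun ζ _ => (hA ζ).differentiableAt.differentiableWithinAt) hm)
    have h3 : HasDerivAt (fun ζ : ℂ => h n ((R : ℂ) * ζ)) ((R : ℂ) • deriv (h n) 0) 0 := by
      have h4 : HasDerivAt (h n) (deriv (h n) 0) ((R : ℂ) * 0) := by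
        rw [mul_zero]
        exact (hn.h_diff.differentiableAt (isOpen_ball.mem_nhds (mem_ball_self hR0))).hasDerivAt
      exact h4.scomp (0 : ℂ) (hA 0)
    rw [h3.deriv, norm_smul, Complex.norm_real, Real.norm_of_nonneg hR0.le] at h2
    rw [le_div_iff₀ hR0]
    linarith
  have h2 : ∀ᶠ n in (𝒰 : Filter ℕ), ‖deriv (h n) 0 - a‖ ≤ ‖a‖ / 2 := by
    filter_upwards [S.cv 2, S.hh 1 (‖a‖ / 2) (by positivity)] with n hn h3
    have hd : DifferentiableOn ℂ (fun z => h n z - (y + z • a)) (ball 0 2) :=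
      hn.h_diff.sub (by fun_prop)
    have h4 : ‖deriv (fun z => h n z - (y + z • a)) 0‖ ≤ (‖a‖ / 2) / 1 := by
      refine Complex.norm_deriv_le_of_forall_mem_sphere_norm_le one_pos ?_ fun z hz => ?_
      · exact (hd.mono (closedBall_subset_ball (by norm_num))).diffContOnCl_ball subset_rfl
      · exact (h3 z (sphere_subset_closedBall hz)).le
    have h5 : HasDerivAt (fun z : ℂ => h n z - (y + z • a)) (deriv (h n) 0 - a) 0 := by
      have h6 : HasDerivAt (h n) (deriv (h n) 0) 0 := (hn.h_diff.differentiableAt (isOpen_ball.mem_nhds (mem_ball_self two_pos))).hasDerivAt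
      have h7 : HasDerivAt (fun z : ℂ => y + z • a) a 0 := by
        simpa using ((hasDerivAt_id (0 : ℂ)).smul_const a).const_add y
      exact h6.sub h7
    rw [h5.deriv, div_one] at h4
    exact h4
  obtain ⟨n, h3, h4⟩ := (h1.and h2).exists
  have h5 : ‖a‖ ≤ ‖deriv (h n) 0‖ + ‖deriv (h n) 0 - a‖ := by
    have := norm_sub_le (deriv (h n) 0) (deriv (h n) 0 - a)
    rwa [sub_sub_cancel] at this
  have h6 : ‖a‖ / 2 ≤ C / R := by linarith
  rw [le_div_iff₀ hR0] at h6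
  have h7 : ‖a‖ / 2 * R = (|C| + 1) + ‖a‖ := by
    rw [hR]
    field_simp
  have := le_abs_self C
  linarith

theorem hd_of (hΛ : Lat Λ) {X : Set ((Cn (k + 1) ⧸ Λ) × PN N)} {F : Fin q → Cn (k + 1) → MvPolynomial (Fin (N + 1)) ℂ} {S : Set (Cn (k + 1) ⧸ Λ)} (H : IsHyp Λ X F S) :
    ∃ (r : ℕ) (W : Fin q → Fin r → Vd (k + 1) →L[ℂ] ℂ) (d : Fin q → ℕ), HD Λ (cS Λ S) (cX Λ X) (fun j => fn (F j)) d W := by
  obtain ⟨C, -, hC⟩ := H.bound
  exact hd_of0 hΛ H.analytic H.sections H.special H.noLines H.fibres fun y a ha g _ _ _ ⟨𝒰, w, h, S⟩ => (no_ls hC ha S).elim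

end Pool.Agent.HE
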