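import Pool.Agent.HE.F.Dsc
import Pool.Agent.TG.SaA

/-!
# HE F Kob: the Kobayashi metric
-/

set_option autoImplicit false

open Topology Filter Metric MvPolynomial

namespace Pool.Agent.HE

open Pool.Agent.H17 (PN VanishesAt HolomorphicInto puncturedDisc)
open Pool.Agent.H36.BP (EN fs wd)
open Pool.Agent.H62.EF (MN pr)
open Pool.Agent.AD (Vd)
open Pool.Agent.TG (Lat Gd)
open Pool.Agent.G3 (wt TT LLift)
open Pool.Agent.PXF (Cn HolomorphicIntoTorus IsSimple IsCurveIn)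
open Pool.Agent.PX (torus_disc torus_univ torus_half)
open Pool.Agent.HEF

variable {N k q r : ℕ} {Λ : AddSubgroup (Vd (k + 1))} {X : Set ((Cn (k + 1) ⧸ Λ) × PN N)} {F : Fin q → Cn (k + 1) → MvPolynomial (Fin (N + 1)) ℂ} {S : Set (Cn (k + 1) ⧸ Λ)}

theorem kobayashi (hΛ : Lat Λ) (H : IsHyp Λ X F S) : KobayashiPositive Λ (outside Λ X F) S := by
  intro y hy _
  obtain ⟨C₀, hC₀, hb⟩ := bound_disc hΛ H
  obtain ⟨r, W, d, P⟩ := hd_of hΛ H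
  have hyS : y ∈ (cS Λ S)ᶜ := hy
  obtain ⟨δ, hδ, hδb⟩ := Metric.isOpen_iff.1 P.D_closed.isOpen_compl _ hyS
  obtain ⟨L, hL, hlip⟩ := P.lip (δ := δ / 2) (H := 4 * C₀) (r₀ := 1 / 2) (by positivity) (by positivity) (by norm_num)
  refine ⟨L, ?_⟩
  filter_upwards [isOpen_ball.mem_nhds (mem_ball_self (x := y) (half_pos hδ))] with y' hy' t g φ hcu ht0 hφ hgφ i j
  have hGd : y' ∈ Gd (cS Λ S) (δ / 2) := by
    intro b hb'
    by_contra hlt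
    push Not at hlt
    have h1 : b ∈ ball y δ := by
      rw [mem_ball_iff_norm] at hy' ⊢
      have h2 : ‖b - y‖ ≤ ‖y' - b‖ + ‖y' - y‖ := by
        have h3 := norm_sub_le (y' - y) (y' - b)
        have h4 : y' - y - (y' - b) = b - y := by abel
        rw [h4] at h3
        linarith
      linarith
    exact hδb h1 hb'
  obtain ⟨h, hh, hth⟩ := torus_disc hΛ hcu.torus
  have h00 : (0 : ℂ) ∈ ball (0 : ℂ) 1 := by simp
  -- normalise
  have hl : (y' : Cn (k + 1) ⧸ Λ) = (h 0 : Cn (k + 1) ⧸ Λ) := ht0.symm.trans (hth 0 h00)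
  have hl' : y' - h 0 ∈ Λ := cls_eq.1 hl
  set h₁ : ℂ → Vd (k + 1) := fun z => h z + (y' - h 0) with hh₁
  have hd₁ : DifferentiableOn ℂ h₁ (ball 0 1) := hh.add_const _
  have ht₁ : ∀ z ∈ ball (0 : ℂ) 1, t z = (h₁ z : Cn (k + 1) ⧸ Λ) := by
    intro z hz
    rw [hth z hz, hh₁, cls_add hl']
  have h10 : h₁ 0 = y' := by simp [hh₁]
  obtain ⟨w, hw, hgw⟩ := lift_disc hcu.proj (show (1 / 2 : ℝ) < 1 by norm_num)
  have hsub : ball (0 : ℂ) (1 / 2) ⊆ ball 0 1 := ball_subset_ball (by norm_num)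
  have hcw : Cw (cX Λ X) (fun j => fn (F j)) (ball 0 (1 / 2)) w h₁ :=
    cw_of (sections_form H) (fun z hz => hcu.mem z (hsub hz)) (hd₁.mono hsub) (fun z hz => ht₁ z (hsub hz)) hw hgw
  -- the bound for the derivative of `h₁`
  have hbd : ∀ z ∈ ball (0 : ℂ) (1 / 2), ‖deriv h₁ z‖ ≤ 4 * C₀ := by
    intro z hz
    have hs2 : ball z (1 / 4) ⊆ ball (0 : ℂ) 1 := by
      intro ζ hζ
      rw [mem_ball_zero_iff] at hz ⊢
      rw [mem_ball_iff_norm] at hζ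
      have h2 : ‖ζ‖ ≤ ‖ζ - z‖ + ‖z‖ := by simpa using norm_add_le (ζ - z) z
      linarith
    have h2 := hb t g h₁ z (1 / 4) (by norm_num) (curveIn_mono hcu hs2) (hd₁.mono hs2) fun ζ hζ => ht₁ ζ (hs2 hζ)
    linarith
  have hk := hlip w h₁ 0 hcw hbd (by rw [h10]; exact hGd)
  have hw0 : AnalyticAt ℂ w 0 := hw.analyticAt (isOpen_ball.mem_nhds (by simp))
  have hwne : w 0 ≠ 0 := (hgw 0 (by simp)).1
  obtain ⟨φ', hφ'⟩ : ∃ φ' : ℂ → EN N, φ' = fun z => WithLp.toLp 2 (φ z) := ⟨_, rfl⟩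
  have hφ'a : AnalyticAt ℂ φ' 0 := by
    rw [hφ']
    exact ((PiLp.continuousLinearEquiv 2 ℂ (fun _ : Fin (N + 1) => ℂ)).symm.toContinuousLinearMap.analyticAt (φ 0)).comp hφ
  have hφ'0 : φ' 0 ≠ 0 := by
    rw [hφ']
    exact toLp_ne hgφ.self_of_nhds.1
  have hprop : ∀ᶠ z in 𝓝 (0 : ℂ), ∃ c : ℂ, φ' z = c • w z := by
    filter_upwards [hgφ, isOpen_ball.mem_nhds (show (0 : ℂ) ∈ ball (0 : ℂ) (1 / 2) by simp)] with z ⟨ha, hb⟩ hz
    obtain ⟨-, hc, hd⟩ := hgw z hz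
    obtain ⟨a, ha'⟩ := (Projectivization.mk_eq_mk_iff' ℂ _ _ ha hc).1 (hb.symm.trans hd)
    refine ⟨a, ?_⟩
    rw [hφ']
    simp only
    rw [← ha']
    rfl
  have hfs := Pool.Agent.TG.fs_smul_fun hφ'a hw0 hφ'0 hwne hprop
  have hdφ : ∀ i, (deriv φ' 0) i = deriv φ 0 i := by
    intro i
    have h1 : HasDerivAt φ' (WithLp.toLp 2 (deriv φ 0)) 0 := by
      have h2 := ((PiLp.continuousLinearEquiv 2 ℂ (fun _ : Fin (N + 1) => ℂ)).symm.toContinuousLinearMap.hasFDerivAt (x := φ 0)).comp_hasDerivAt (0 : ℂ) hφ.differentiableAt.hasDerivAt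
      rw [hφ']
      exact h2
    rw [h1.deriv]
  have h3 := minor_le (φ' 0) (deriv φ' 0) i j
  rw [hdφ i, hdφ j] at h3
  have h4 : wd (φ' 0) (deriv φ' 0) = fs (φ' 0) (deriv φ' 0) * ‖φ' 0‖ ^ 2 := by
    unfold fs
    rw [div_mul_cancel₀]
    exact pow_ne_zero _ (norm_ne_zero_iff.2 hφ'0)
  have h5 : ‖φ' 0‖ ^ 2 = ∑ i, ‖φ 0 i‖ ^ 2 := by
    rw [EuclideanSpace.norm_sq_eq, hφ']
  rw [h4, hfs, h5] at h3
  have h6 : φ' 0 i = φ 0 i := by rw [hφ']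
  have h7 : φ' 0 j = φ 0 j := by rw [hφ']
  rw [h6, h7] at h3
  refine h3.trans (mul_le_mul_of_nonneg_right hk ?_)
  positivity

end Pool.Agent.HE
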