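import Pool.Agent.HE.F.Pun
import Pool.Agent.HE.F.Kob

/-!
# HE F Main: the theorem for `IsHyperbolicOff`
-/

set_option autoImplicit false

namespace Pool.Agent.HEF

open Pool.Agent.H17 (PN VanishesAt HolomorphicInto)
open Pool.Agent.TG (Lat)
open Pool.Agent.PXF (Cn IsHyperbolicModulo)

variable {k m q : ℕ} {Λ : AddSubgroup (Cn (k + 1))} {X : Set ((Cn (k + 1) ⧸ Λ) × PN m)} {F : Fin q → Cn (k + 1) → MvPolynomial (Fin (m + 1)) ℂ} {S : Set (Cn (k + 1) ⧸ Λ)}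

theorem IsHyperbolicOff.hyperbolic (H : IsHyperbolicOff Λ X F S) (hΛ : Lat Λ) : IsHyperbolicModulo Λ (outside Λ X F) S :=
  by
  have H := Pool.Agent.HE.IsHyp.of_off hΛ H
  exact ⟨Pool.Agent.HE.discs hΛ H, Pool.Agent.HE.entire hΛ H, Pool.Agent.HE.punctured hΛ H⟩

theorem IsHyperbolicOff.kobayashi (H : IsHyperbolicOff Λ X F S) (hΛ : Lat Λ) : KobayashiPositive Λ (outside Λ X F) S := Pool.Agent.HE.kobayashi hΛ (Pool.Agent.HE.IsHyp.of_off hΛ H)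

open Pool.Agent.HE (IsHyp)

theorem _root_.Pool.Agent.HE.IsHyp.hyperbolic (H : IsHyp Λ X F S) (hΛ : Lat Λ) : IsHyperbolicModulo Λ (outside Λ X F) S :=
  ⟨Pool.Agent.HE.discs hΛ H, Pool.Agent.HE.entire hΛ H, Pool.Agent.HE.punctured hΛ H⟩

theorem _root_.Pool.Agent.HE.IsHyp.kobayashi (H : IsHyp Λ X F S) (hΛ : Lat Λ) : KobayashiPositive Λ (outside Λ X F) S := Pool.Agent.HE.kobayashi hΛ H

end Pool.Agent.HEF
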