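import Pool.Agent.HE.F.Kob
import Pool.Agent.HE.Kwa

/-!
# HE F Off: maps of the punctured disc, the component in the projective space, at the points outside `S`

The discs `σ ↦ exp (ζ + R σ)`, `R = - Re ζ / 2`; `HD.lip`, `kwack`.
-/

set_option autoImplicit false

open Topology Filter Metric MvPolynomial

namespace Pool.Agent.HE

open Pool.Agent.H17 (PN VanishesAt HolomorphicInto puncturedDisc)
open Pool.Agent.H36.BP (EN fs wd)
open Pool.Agent.H62.EF (MN pr)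
open Pool.Agent.AD (Vd)
open Pool.Agent.TG (Lat Gd)
open Pool.Agent.G3 (wt TT LLift)
open Pool.Agent.PXF (Cn HolomorphicIntoTorus IsSimple IsCurveIn)
open Pool.Agent.HEF

variable {N k q r : ℕ} {Λ : AddSubgroup (Vd (k + 1))} {X : Set ((Cn (k + 1) ⧸ Λ) × PN N)} {F : Fin q → Cn (k + 1) → MvPolynomial (Fin (N + 1)) ℂ} {S : Set (Cn (k + 1) ⧸ Λ)}

/-- composition of a holomorphic map to the projective space with a holomorphic function -/
theorem hol_comp {g : ℂ → PN N} {U V : Set ℂ} (hg : HolomorphicInto g U) {φ : ℂ → ℂ} (hφ : ∀ z ∈ V, AnalyticAt ℂ φ z ∧ φ z ∈ U) :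
    HolomorphicInto (fun z => g (φ z)) V := by
  intro z₀ hz₀
  obtain ⟨h1, h2⟩ := hφ z₀ hz₀
  obtain ⟨ψ, hψ, he⟩ := hg (φ z₀) h2
  exact ⟨fun z => ψ (φ z), hψ.comp h1, h1.continuousAt.eventually he⟩

theorem fibre_off (hΛ : Lat Λ) (Hs : IsHyp Λ X F S) {H : ℂ → Vd (k + 1)} {ρ : ℝ} (hρ : 0 < ρ) (hρ1 : ρ < 1) (hH : DifferentiableOn ℂ H (ball 0 ρ)) (hH0 : (H 0 : Cn (k + 1) ⧸ Λ) ∉ S)
    {g : ℂ → PN N} (hg : HolomorphicInto g puncturedDisc) (hT : ∀ z ∈ ball (0 : ℂ) ρ \ {0}, ((H z : Cn (k + 1) ⧸ Λ), g z) ∈ outside Λ X F) :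
    ∃ g' : ℂ → PN N, HolomorphicInto g' (ball 0 1) ∧ ∀ z ∈ puncturedDisc, g' z = g z := by
  obtain ⟨C₀, hC₀, hb⟩ := bound_disc hΛ Hs
  obtain ⟨r, W, d, P⟩ := hd_of hΛ Hs
  have hyS : H 0 ∈ (cS Λ S)ᶜ := hH0
  obtain ⟨δ, hδ, hδb⟩ := Metric.isOpen_iff.1 P.D_closed.isOpen_compl _ hyS
  obtain ⟨L, hL, hlip⟩ := P.lip (δ := δ / 2) (H := 2 * C₀) (r₀ := 1 / 2) (by positivity) (by positivity) (by norm_num)
  have hcont : ContinuousAt H 0 := (hH.differentiableAt (isOpen_ball.mem_nhds (mem_ball_self hρ))).continuousAt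
  obtain ⟨r₁, hr₁, hr₁b⟩ := Metric.continuousAt_iff.1 hcont (δ / 2) (half_pos hδ)
  obtain ⟨r₀, hr₀, hr₀ρ, hr₀1⟩ : ∃ r₀ : ℝ, 0 < r₀ ∧ r₀ ≤ ρ ^ 2 ∧ r₀ ≤ r₁ := ⟨min (ρ ^ 2) r₁, lt_min (by positivity) hr₁, min_le_left _ _, min_le_right _ _⟩
  have hρ2 : ρ ^ 2 < 1 := by nlinarith
  have hρρ : ρ ^ 2 ≤ ρ := by nlinarith
  refine kwack hg (L := 2 * L) hr₀ (hr₀ρ.trans_lt hρ2) fun G hG hGg z hz => ?_
  have hz0 : z ≠ 0 := hz.2
  have hzn : ‖z‖ < r₀ := mem_ball_zero_iff.1 hz.1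
  have hzp : 0 < ‖z‖ := norm_pos_iff.2 hz0
  obtain ⟨ζ, hζ⟩ : ∃ ζ : ℂ, ζ = Complex.log z := ⟨_, rfl⟩
  have hez : Complex.exp ζ = z := by rw [hζ, Complex.exp_log hz0]
  obtain ⟨R, hR⟩ : ∃ R : ℝ, R = Real.log (1 / ‖z‖) / 2 := ⟨_, rfl⟩
  have hz1 : ‖z‖ < 1 := hzn.trans (hr₀ρ.trans_lt hρ2)
  have hR0 : 0 < R := by
    rw [hR]
    have : 0 < Real.log (1 / ‖z‖) := Real.log_pos (by rw [lt_div_iff₀ hzp, one_mul]; exact hz1)
    linarith
  obtain ⟨φ, hφ⟩ : ∃ φ : ℂ → ℂ, φ = fun σ => Complex.exp (ζ + (R : ℂ) * σ) := ⟨_, rfl⟩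
  have hφ0 : φ 0 = z := by rw [hφ]; simp [hez]
  have hφd : ∀ σ, HasDerivAt φ (φ σ * (R : ℂ)) σ := by
    intro σ
    have h1 : HasDerivAt (fun σ : ℂ => ζ + (R : ℂ) * σ) (R : ℂ) σ := by simpa using ((hasDerivAt_id σ).const_mul (R : ℂ)).const_add ζ
    rw [hφ]
    exact h1.cexp
  have hφm : ∀ σ ∈ ball (0 : ℂ) 1, φ σ ∈ ball (0 : ℂ) ρ \ {0} := by
    intro σ hσ
    rw [mem_ball_zero_iff] at hσ
    refine ⟨?_, ?_⟩
    · rw [mem_ball_zero_iff, hφ]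
      simp only
      rw [Complex.norm_exp, Complex.add_re, hζ, Complex.log_re, Complex.re_ofReal_mul]
      have h1 : R * σ.re ≤ R := by
        have := (Complex.re_le_norm σ).trans hσ.le
        nlinarith
      have h2 : Real.log ‖z‖ + R * σ.re ≤ Real.log ‖z‖ / 2 := by
        have h3 : R = -Real.log ‖z‖ / 2 := by rw [hR, one_div, Real.log_inv]
        rw [h3] at h1
        rw [h3]
        linarith
      have h3 : Real.log ‖z‖ / 2 < Real.log ρ := by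
        have h4 : Real.log ‖z‖ < Real.log (ρ ^ 2) := Real.log_lt_log hzp (hzn.trans_le hr₀ρ)
        rw [Real.log_pow] at h4
        push_cast at h4
        linarith
      calc Real.exp (Real.log ‖z‖ + R * σ.re) ≤ Real.exp (Real.log ‖z‖ / 2) := Real.exp_le_exp.2 h2
        _ < Real.exp (Real.log ρ) := Real.exp_lt_exp.2 h3
        _ = ρ := Real.exp_log hρ
    · rw [hφ]
      exact Complex.exp_ne_zero _
  have hφa : ∀ σ, AnalyticAt ℂ φ σ := by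
    intro σ
    rw [hφ]
    fun_prop
  have hsubp : ball (0 : ℂ) ρ \ {0} ⊆ puncturedDisc := fun w hw => ⟨ball_subset_ball hρ1.le hw.1, hw.2⟩
  have hgφ : HolomorphicInto (fun σ => g (φ σ)) (ball 0 1) := hol_comp hg fun σ hσ => ⟨hφa σ, hsubp (hφm σ hσ)⟩
  have hHφ : DifferentiableOn ℂ (fun σ => H (φ σ)) (ball 0 1) := hH.comp (fun σ _ => (hφa σ).differentiableAt.differentiableWithinAt) fun σ hσ => (hφm σ hσ).1
  have hcu : IsCurveIn Λ (outside Λ X F) (fun σ => (H (φ σ) : Cn (k + 1) ⧸ Λ)) (fun σ => g (φ σ)) (ball 0 1) := by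
    refine ⟨fun σ hσ => ⟨fun σ => H (φ σ), hHφ.analyticAt (isOpen_ball.mem_nhds hσ), Eventually.of_forall fun _ => rfl⟩, hgφ, fun σ hσ => hT _ (hφm σ hσ)⟩
  have hbd : ∀ σ ∈ ball (0 : ℂ) (1 / 2), ‖deriv (fun σ => H (φ σ)) σ‖ ≤ 2 * C₀ := by
    intro σ hσ
    have hs2 : ball σ (1 / 2) ⊆ ball (0 : ℂ) 1 := by
      intro w hw
      rw [mem_ball_zero_iff] at hσ ⊢
      rw [mem_ball_iff_norm] at hw
      have h2 : ‖w‖ ≤ ‖w - σ‖ + ‖σ‖ := by simpa using norm_add_le (w - σ) σ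
      linarith
    have h2 := hb _ _ (fun σ => H (φ σ)) σ (1 / 2) (by norm_num) (curveIn_mono hcu hs2) (hHφ.mono hs2) fun _ _ => rfl
    linarith
  obtain ⟨w, hw, hgw⟩ := lift_disc hgφ (show (1 / 2 : ℝ) < 1 by norm_num)
  have hsub : ball (0 : ℂ) (1 / 2) ⊆ ball 0 1 := ball_subset_ball (by norm_num)
  have hcw : Cw (cX Λ X) (fun j => fn (F j)) (ball 0 (1 / 2)) w fun σ => H (φ σ) :=
    cw_of (sections_form Hs) (fun σ hσ => hcu.mem σ (hsub hσ)) (hHφ.mono hsub) (fun _ _ => rfl) hw hgw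
  have hk := hlip w (fun σ => H (φ σ)) 0 hcw hbd (by
    intro b hb'
    by_contra hlt
    push Not at hlt
    simp only [hφ0] at hlt
    have h1 : b ∈ ball (H 0) δ := by
      have h3 := hr₁b (x := z) (by rw [dist_zero_right]; exact hzn.trans_le hr₀1)
      rw [mem_ball_iff_norm]
      rw [dist_eq_norm] at h3
      have h4 := norm_sub_le (H z - H 0) (H z - b)
      have h5 : H z - H 0 - (H z - b) = b - H 0 := by abel
      rw [h5] at h4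
      linarith
    exact hδb h1 hb')
  -- comparison of the two lifts
  have h0m : (0 : ℂ) ∈ ball (0 : ℂ) (1 / 2) := by simp
  have hwa : AnalyticAt ℂ w 0 := hw.analyticAt (isOpen_ball.mem_nhds h0m)
  have hGa : AnalyticAt ℂ G z := hG.analyticAt ((isOpen_ball.sdiff isClosed_singleton).mem_nhds hz)
  have hGφ : AnalyticAt ℂ (fun σ => G (φ σ)) 0 := AnalyticAt.comp_of_eq hGa (hφa 0) hφ0
  have hGz0 : G z ≠ 0 := by
    obtain ⟨h1, -⟩ := hGg z hz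
    rintro h2
    exact h1 (by rw [h2]; rfl)
  have hprop : ∀ᶠ σ in 𝓝 (0 : ℂ), ∃ c : ℂ, G (φ σ) = c • w σ := by
    have h1 : ∀ᶠ σ in 𝓝 (0 : ℂ), φ σ ∈ ball (0 : ℂ) r₀ \ {0} := by
      have h2 := (hφa 0).continuousAt
      have h3 : ball (0 : ℂ) r₀ \ {0} ∈ 𝓝 (φ 0) := by
        rw [hφ0]
        exact (isOpen_ball.sdiff isClosed_singleton).mem_nhds hz
      exact h2 h3
    filter_upwards [h1, isOpen_ball.mem_nhds h0m] with σ h2 h3
    obtain ⟨ha, hb⟩ := hGg _ h2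
    obtain ⟨-, hc, hd⟩ := hgw σ h3
    obtain ⟨a, ha'⟩ := (Projectivization.mk_eq_mk_iff' ℂ _ _ ha hc).1 (hb.symm.trans hd)
    refine ⟨a, ?_⟩
    ext i
    exact (congrFun ha' i).symm
  have hfs := Pool.Agent.TG.fs_smul_fun hGφ hwa (by rw [hφ0]; exact hGz0) (hgw 0 h0m).1 hprop
  have hder : deriv (fun σ => G (φ σ)) 0 = (z * (R : ℂ)) • deriv G z := by
    have h1 : HasDerivAt G (deriv G z) (φ 0) := by
      rw [hφ0]
      exact hGa.differentiableAt.hasDerivAt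
    have h2 := h1.scomp (0 : ℂ) (hφd 0)
    rw [hφ0] at h2
    exact h2.deriv
  rw [hder, hφ0, Pool.Agent.H36.BP.fs_smul_right, norm_mul, Complex.norm_real, Real.norm_of_nonneg hR0.le] at hfs
  rw [← hfs, hR] at hk
  have h6 : fs (G z) (deriv G z) * (‖z‖ * Real.log (1 / ‖z‖)) = 2 * (‖z‖ * (Real.log (1 / ‖z‖) / 2) * fs (G z) (deriv G z)) := by ring
  rw [h6]
  linarith

end Pool.Agent.HE
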